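import Pool.Agent.Helper67.Mixed.Main

set_option autoImplicit false

/-!
# The case `m = 4` of the Rousseau–Speed conjecture

`mixedRamsey m n` is the mixed Ramsey number `t(m, n)` and `ramsey m n` the classical Ramsey number
`r(m, n)`, exactly as in the problem.  We prove `t(4, n) / r(4, n) → 0`, with the rate
`O((log n) ^ 5 / √n)`.
-/

namespace Pool.Agent.Results.MP_3f28b4_co.CaseFour

open Filter Topology

/-- `t(m, n)`: the least `N` such that every graph of order `N` has an irredundant set of size `m`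
or a clique of size `n`. A set `S` is irredundant when every `v ∈ S` has a private neighbour `w`:
`w` lies in the closed neighbourhood of `v` and of no other member of `S`. -/
noncomputable def mixedRamsey (m n : ℕ) : ℕ :=
  sInf {N : ℕ | ∀ G : SimpleGraph (Fin N),
    (∃ S : Finset (Fin N), S.card = m ∧ ∀ v ∈ S, ∃ w : Fin N, (w = v ∨ G.Adj v w) ∧
      ∀ u ∈ S, u ≠ v → ¬ (w = u ∨ G.Adj u w)) ∨ ∃ s : Finset (Fin N), G.IsNClique n s}

/-- `r(m, n)`: the least `N` such that every graph of order `N` has an independent set of size `m`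
or a clique of size `n`. -/
noncomputable def ramsey (m n : ℕ) : ℕ :=
  sInf {N : ℕ | ∀ G : SimpleGraph (Fin N),
    (∃ s : Finset (Fin N), Gᶜ.IsNClique m s) ∨ ∃ s : Finset (Fin N), G.IsNClique n s}

/-- The Rousseau–Speed conjecture holds for `m = 4`: `t(4, n) / r(4, n) → 0`, and in fact
`t(4, n) / r(4, n) = O((log n) ^ 5 / √n)`. -/
theorem result :
    Tendsto (fun n : ℕ => (mixedRamsey 4 n : ℝ) / (ramsey 4 n : ℝ)) atTop (𝓝 0) ∧
    ∃ C : ℝ, ∀ᶠ n : ℕ in atTop,
      (mixedRamsey 4 n : ℝ) / (ramsey 4 n : ℝ) ≤ C * ((Real.log n) ^ 5 / Real.sqrt n) := by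
  obtain ⟨C, hC, hev⟩ := Pool.Agent.Helper67.Mixed.ratio_bound
  have hev' : ∀ᶠ n : ℕ in atTop,
      (mixedRamsey 4 n : ℝ) / (ramsey 4 n : ℝ) ≤ C * ((Real.log n) ^ 5 / Real.sqrt n) := hev
  refine ⟨?_, C, hev'⟩
  have hlim : Tendsto (fun n : ℕ => C * ((Real.log n) ^ 5 / Real.sqrt n)) atTop (𝓝 0) := by
    have h1 : Tendsto (fun x : ℝ => (Real.log x) ^ 5 / Real.sqrt x) atTop (𝓝 0) := by
      have h2 := isLittleO_log_rpow_rpow_atTop (s := 1 / 2) 5 (by norm_num)
      have h3 := h2.tendsto_div_nhds_zero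
      refine h3.congr' ?_
      filter_upwards [eventually_ge_atTop 1] with x hx
      rw [Real.sqrt_eq_rpow]
      congr 1
      exact_mod_cast Real.rpow_natCast (Real.log x) 5
    have h4 := (h1.comp (tendsto_natCast_atTop_atTop (R := ℝ))).const_mul C
    rw [mul_zero] at h4
    exact h4
  refine tendsto_of_tendsto_of_tendsto_of_le_of_le' tendsto_const_nhds hlim ?_ hev'
  exact Eventually.of_forall fun n => by positivity

end Pool.Agent.Results.MP_3f28b4_co.CaseFour
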